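import Pool.Agent.Results.MP_5022ed_ag.Analytic

set_option autoImplicit false

namespace Pool.Agent.Lib.MP_5022ed_ag.An

open IsLocalRing

/-- The old statement (text copied from EssFiniteType.result) from the new one. -/
theorem old_of_new (p : ℕ) (hp : p.Prime) (k R : Type*) [Field k] [CommRing R] [IsLocalRing R]
    [Algebra k R] [Algebra.EssFiniteType k R] [CharP R p] (d : ℕ)
    (hd : ringKrullDim R = (d : WithBot ℕ∞))
    (hperf : ∀ y : R, ∃ z : R, y - z ^ p ∈ IsLocalRing.maximalIdeal R)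
    (hSFR : ∀ c : R, (∀ P ∈ minimalPrimes R, c ∉ P) → ∃ e : ℕ, 1 ≤ e ∧ ∃ φ : R →+ R,
      (∀ r y : R, φ (r ^ (p ^ e) * y) = r * φ y) ∧ φ c = 1) :
    ∃ s C K : ℝ, ∀ e : ℕ, ∃ a : ℕ,
      IsGreatest {n : ℕ | ∃ φ : Fin n → (R →+ R), ∃ x : Fin n → R,
          (∀ (i : Fin n) (r y : R), φ i (r ^ (p ^ e) * y) = r * φ i y) ∧
          ∀ i j : Fin n, φ i (x j) = if i = j then 1 else 0} a ∧
      |(a : ℝ) - s * (p : ℝ) ^ ((e : ℝ) * (d : ℝ))
          - C * (p : ℝ) ^ ((e : ℝ) * ((d : ℝ) - 1))|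
        ≤ K * (p : ℝ) ^ ((e : ℝ) * ((d : ℝ) - 2)) := by
  have : Fact p.Prime := ⟨hp⟩
  have : CharP k p := (algebraMap k R).charP (algebraMap k R).injective p
  have : IsNoetherianRing R := Algebra.EssFiniteType.isNoetherianRing k R
  have : PerfectField k := by
    let _ := Ideal.Quotient.field (IsLocalRing.maximalIdeal R)
    refine perfectField_of_perfect (p := p) k (R ⧸ IsLocalRing.maximalIdeal R) fun y => ?_
    obtain ⟨y, rfl⟩ := Ideal.Quotient.mk_surjective y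
    obtain ⟨z, hz⟩ := hperf y
    exact ⟨Ideal.Quotient.mk _ z, by rw [← map_pow, eq_comm, Ideal.Quotient.eq]; exact hz⟩
  obtain ⟨m, _, _, S, N, y, hB, hS⟩ := exists_base k R
  obtain ⟨⟨G, hG⟩⟩ := (hB.locGen hS).finite (p := p) 1
  refine Pool.Agent.Results.MP_5022ed_ag.Analytic.result p hp R d hd hperf ⟨G, fun x => ?_⟩ hSFR
    k R ⟨RingEquiv.refl _⟩
  obtain ⟨f, -, hf⟩ := Submodule.mem_span_finset.1
    (show Fr.mk p 1 x ∈ Submodule.span R (G : Set (Fr p 1 R)) by rw [hG]; trivial)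
  refine ⟨f, ?_⟩
  have h2 : ∑ s ∈ G, f s ^ p ^ 1 * (Fr.mk p 1).symm s = x := hf
  simp only [pow_one] at h2
  exact h2.symm

/-- Check of the Relation line: the completion of a ring of the old statement meets every
hypothesis of the new statement. -/
theorem completion_hyps (p : ℕ) (hp : p.Prime) (k A : Type*) [Field k] [CommRing A] [IsLocalRing A]
    [Algebra k A] [Algebra.EssFiniteType k A] [IsNoetherianRing A] [CharP A p] (d : ℕ)
    (hd : ringKrullDim A = (d : WithBot ℕ∞))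
    (hperf : ∀ y : A, ∃ z : A, y - z ^ p ∈ IsLocalRing.maximalIdeal A)
    (hSFR : ∀ c : A, (∀ P ∈ minimalPrimes A, c ∉ P) → ∃ e : ℕ, 1 ≤ e ∧ ∃ φ : A →+ A,
      (∀ r y : A, φ (r ^ (p ^ e) * y) = r * φ y) ∧ φ c = 1) :
    let R := AdicCompletion (maximalIdeal A) A
    IsNoetherianRing R ∧ CharP R p ∧ ringKrullDim R = (d : WithBot ℕ∞) ∧
    (∀ y : R, ∃ z : R, y - z ^ p ∈ IsLocalRing.maximalIdeal R) ∧
    (∃ S : Finset R, ∀ x : R, ∃ f : R → R, x = ∑ s ∈ S, f s ^ p * s) ∧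
    (∀ c : R, (∀ P ∈ minimalPrimes R, c ∉ P) → ∃ e : ℕ, 1 ≤ e ∧ ∃ φ : R →+ R,
      (∀ r y : R, φ (r ^ (p ^ e) * y) = r * φ y) ∧ φ c = 1) ∧
    Nonempty (AdicCompletion (maximalIdeal R) R ≃+* AdicCompletion (maximalIdeal A) A) := by
  intro R
  have : Fact p.Prime := ⟨hp⟩
  have h : An A R := an_cpl A
  have : IsNoetherianRing R := cpl_noeth A
  have : CharP R p := charP_of_injective_algebraMap h.inj p
  have : CharP k p := (algebraMap k A).charP (algebraMap k A).injective p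
  have : IsDomain A := isDomain_of_sfr hp.two_le hSFR
  have : PerfectField k := by
    let _ := Ideal.Quotient.field (IsLocalRing.maximalIdeal A)
    refine perfectField_of_perfect (p := p) k (A ⧸ IsLocalRing.maximalIdeal A) fun y => ?_
    obtain ⟨y, rfl⟩ := Ideal.Quotient.mk_surjective y
    obtain ⟨z, hz⟩ := hperf y
    exact ⟨Ideal.Quotient.mk _ z, by rw [← map_pow, eq_comm, Ideal.Quotient.eq]; exact hz⟩
  obtain ⟨m, _, _, S, N, y, hB, hS⟩ := exists_base k A
  have hf := (hB.locGen hS).finite (p := p)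
  have hF : SFR p A := fun c hc => by
    obtain ⟨e, he, φ, hφ, h1⟩ := hSFR c fun P hP => by
      rw [IsDomain.minimalPrimes_eq_singleton_bot] at hP
      rw [Set.mem_singleton_iff.1 hP]
      simpa using hc
    exact ⟨e, he, { toFun := fun r => φ ((Fr.mk p e).symm r)
                    map_add' := fun a b => by rw [map_add, map_add]
                    map_smul' := fun r y => hφ r _ }, h1⟩
  refine ⟨inferInstance, inferInstance, h.dim.trans hd, fun y => ?_, ?_, fun c hc => ?_,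
    ⟨(AdicCompletion.ofAlgEquiv (maximalIdeal R)).symm.toRingEquiv⟩⟩
  · obtain ⟨s, hs⟩ := h.res y
    obtain ⟨z, hz⟩ := hperf s
    refine ⟨algebraMap A R z, ?_⟩
    convert add_mem hs (h.mem.2 hz) using 1
    simp only [map_sub, map_pow]
    ring
  · have := hf 1
    obtain ⟨n, x, hx⟩ := exists_gen p 1 A
    obtain ⟨⟨G, hG⟩⟩ : Module.Finite R (Fr p 1 R) := .of_surjective _ (h.gen hx)
    refine ⟨G, fun x => ?_⟩
    obtain ⟨f, -, hf⟩ := Submodule.mem_span_finset.1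
      (show Fr.mk p 1 x ∈ Submodule.span R (G : Set (Fr p 1 R)) by rw [hG]; trivial)
    refine ⟨f, ?_⟩
    have h2 : ∑ s ∈ G, f s ^ p ^ 1 * (Fr.mk p 1).symm s = x := hf
    simp only [pow_one] at h2
    exact h2.symm
  · obtain ⟨P, hP, -⟩ := Ideal.exists_minimalPrimes_le (I := ⊥) (J := maximalIdeal R) bot_le
    obtain ⟨e, he, φ, hφ⟩ := h.sfr_asc hp.two_le hf hF c fun h0 => hc P hP (h0 ▸ zero_mem P)
    refine ⟨e, he, φ.toAddMonoidHom.comp (Fr.mk p e (M := R)).toAddMonoidHom, fun r y => ?_, hφ⟩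
    exact Fr.apply_pow_mul φ r y

end Pool.Agent.Lib.MP_5022ed_ag.An
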