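import Pool.Agent.Lib.MP_5022ed_ag.Dim
import Pool.Agent.Lib.MP_9e3d42_al.CS.Ev

/-!
Splitting numbers and strong F-regularity only depend on the completion.
-/

set_option autoImplicit false
set_option linter.unusedSectionVars false

namespace Pool.Agent.Lib.MP_5022ed_ag

open IsLocalRing Module

/-- Flat local extensions with the same maximal ideal and the same residue field. -/
structure An (S T : Type*) [CommRing S] [CommRing T] [IsLocalRing S] [IsLocalRing T]
    [Algebra S T] : Prop where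
  flat : Module.Flat S T
  map : (maximalIdeal S).map (algebraMap S T) = maximalIdeal T
  res : ∀ t, ∃ s, t - algebraMap S T s ∈ maximalIdeal T

lemma cpl_res (R : Type*) [CommRing R] [IsLocalRing R] [IsNoetherianRing R]
    (a : AdicCompletion (maximalIdeal R) R) : ∃ b : R,
      a - algebraMap R _ b ∈ maximalIdeal (AdicCompletion (maximalIdeal R) R) := by
  obtain ⟨b, hb⟩ := (AdicCompletion.residueField_map_bijective R).2 (residue _ a)
  obtain ⟨b, rfl⟩ := residue_surjective b
  exact ⟨b, by rw [← residue_eq_zero_iff, map_sub, ← hb, ResidueField.map_residue, sub_self]⟩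

lemma cpl_noeth (R : Type*) [CommRing R] [IsLocalRing R] [IsNoetherianRing R] :
    IsNoetherianRing (AdicCompletion (maximalIdeal R) R) := by
  obtain ⟨n, y, hy⟩ := Submodule.fg_iff_exists_fin_generating_family.1
    (maximalIdeal R).fg_of_isNoetherianRing
  have hm : maximalIdeal (AdicCompletion (maximalIdeal R) R) =
      Ideal.span (Set.range fun i => algebraMap R (AdicCompletion (maximalIdeal R) R) (y i)) := by
    rw [AdicCompletion.maximalIdeal_eq_map]
    conv_lhs => enter [2]; rw [← hy]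
    rw [Ideal.submodule_span_eq, Ideal.map_span, ← Set.range_comp]
    rfl
  obtain ⟨φ, h1, h2⟩ := MP_9e3d42_al.CS.exists_ev (σ := Fin n)
    (maximalIdeal (AdicCompletion (maximalIdeal R) R)) (algebraMap R _)
    (fun i => algebraMap R _ (y i)) fun i => hm.ge (Ideal.subset_span ⟨i, rfl⟩)
  have hI : (Ideal.span (Set.range (MvPowerSeries.X : Fin n → MvPowerSeries (Fin n) R))).map φ =
      maximalIdeal (AdicCompletion (maximalIdeal R) R) := by
    rw [hm, Ideal.map_span, ← Set.range_comp]
    congr 2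
    exact funext h2
  refine isNoetherianRing_of_surjective (MvPowerSeries (Fin n) R) _ φ ?_
  have : IsHausdorff ((Ideal.span (Set.range
      (MvPowerSeries.X : Fin n → MvPowerSeries (Fin n) R))).map φ)
      (AdicCompletion (maximalIdeal R) R) := hI ▸ inferInstance
  refine surjective_of_mk_map_comp_surjective φ (I := Ideal.span (Set.range MvPowerSeries.X))
    fun a => ?_
  obtain ⟨a, rfl⟩ := Ideal.Quotient.mk_surjective a
  obtain ⟨b, hb⟩ := cpl_res R a
  refine ⟨MvPowerSeries.C b, (Ideal.Quotient.eq.2 ?_).symm⟩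
  rwa [hI, h1]

lemma prec_fin {O C : Type*} [CommRing O] (I : Ideal O) [IsPrecomplete I O] [AddCommGroup C]
    [Module O C] [Module.Finite O C] : IsPrecomplete I C := by
  refine AdicCompletion.of_surjective_iff.1 fun y => ?_
  obtain ⟨t, rfl⟩ := AdicCompletion.ofTensorProduct_surjective_of_finite I C y
  induction t with
  | zero => exact ⟨0, by simp⟩
  | tmul r c =>
    obtain ⟨r, rfl⟩ := AdicCompletion.of_surjective I O r
    refine ⟨r • c, ?_⟩
    rw [AdicCompletion.ofTensorProduct_tmul, map_smul]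
    exact (algebraMap_smul (AdicCompletion I O) r _).symm
  | add a b ha hb =>
    obtain ⟨a', ha⟩ := ha
    obtain ⟨b', hb⟩ := hb
    exact ⟨a' + b', by rw [map_add, map_add, ha, hb]⟩

/-- Generic freeness in its weakest form. -/
lemma exists_factor (R M : Type*) [CommRing R] [IsDomain R] [AddCommGroup M] [Module R M]
    [Module.Finite R M] : ∃ b : R, b ≠ 0 ∧ ∃ (ι : Type) (_ : Fintype ι) (φ : ι → M →ₗ[R] R)
      (x : ι → M), ∀ y, b • y = ∑ i, φ i y • x i := by
  classical
  obtain ⟨n, v, hv⟩ := Module.Finite.exists_fin (R := R) (M := M)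
  obtain ⟨s, hs, hs'⟩ := exists_maximal_linearIndepOn R v
  choose! a ha ha' using hs'
  let b := ∏ i ∈ Finset.univ.filter (· ∉ s), a i
  have hb : ∀ y, b • y ∈ Submodule.span R (Set.range fun i : s => v i) := by
    intro y
    have hy : y ∈ Submodule.span R (Set.range v) := by rw [hv]; trivial
    rw [← Set.image_eq_range v s]
    induction hy using Submodule.span_induction with
    | mem _ hy =>
      obtain ⟨i, rfl⟩ := hy
      by_cases hi : i ∈ s
      · exact Submodule.smul_mem _ _ (Submodule.subset_span ⟨i, hi, rfl⟩)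
      · obtain ⟨c, hc⟩ : a i ∣ b := Finset.dvd_prod_of_mem _ (by simpa using hi)
        rw [hc, mul_comm, mul_smul]
        exact Submodule.smul_mem _ _ (ha' i hi)
    | zero => simp
    | add x y _ _ h1 h2 => rw [smul_add]; exact add_mem h1 h2
    | smul c x _ h1 => rw [smul_comm]; exact Submodule.smul_mem _ _ h1
  let B := Basis.span hs
  let g := LinearMap.codRestrict _ (LinearMap.lsmul R M b) hb
  refine ⟨b, Finset.prod_ne_zero_iff.2 fun i hi => ha i (by simpa using hi), s, inferInstance,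
    fun i => B.coord i ∘ₗ g, fun i => v i, fun y => ?_⟩
  have := congrArg Subtype.val (B.sum_repr (g y))
  rw [Submodule.coe_sum] at this
  refine this.symm.trans (Finset.sum_congr rfl fun i _ => ?_)
  rw [Submodule.coe_smul]
  exact congrArg _ (Basis.coe_span_apply hs i)

variable {p : ℕ}

lemma fr_finite {R : Type*} [CommRing R] [ExpChar R p] [Module.Finite R (Fr p 1 R)] (e : ℕ) :
    Module.Finite R (Fr p e R) := by
  induction e with
  | zero =>
    refine .of_surjective (LinearMap.toSpanSingleton R _ (Fr.mk p 0 (1 : R))) fun w => ?_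
    obtain ⟨w, rfl⟩ := (Fr.mk p 0).surjective w
    exact ⟨w, by rw [LinearMap.toSpanSingleton_apply, Fr.smul_mk]; simp⟩
  | succ e ih =>
    obtain ⟨n, f, hf⟩ := Module.Finite.exists_fin' R (Fr p 1 R)
    have : Module.Finite R (Fr p e (Fin n → R)) := .equiv (Fr.piEquiv p e R R (Fin n)).symm
    have : Module.Finite R (Fr p e (Fr p 1 R)) :=
      .of_surjective (Fr.map p e f) (Fr.map_surjective hf)
    exact .equiv (Fr.succEquiv p e R R)

lemma exists_gen (p e : ℕ) (R : Type*) [CommRing R] [ExpChar R p] [Module.Finite R (Fr p e R)] :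
    ∃ (n : ℕ) (x : Fin n → R), ∀ s, ∃ a : Fin n → R, s = ∑ i, a i ^ p ^ e * x i := by
  obtain ⟨n, v, hv⟩ := Module.Finite.exists_fin (R := R) (M := Fr p e R)
  refine ⟨n, fun i => (Fr.mk p e).symm (v i), fun s => ?_⟩
  obtain ⟨a, ha⟩ := (Submodule.mem_span_range_iff_exists_fun R).1
    (show Fr.mk p e s ∈ Submodule.span R (Set.range v) by rw [hv]; trivial)
  refine ⟨a, (Fr.mk p e).injective ?_⟩
  rw [← ha, map_sum]
  rfl

lemma apply_sum {e : ℕ} {R ι : Type*} [CommRing R] [ExpChar R p] [Fintype ι]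
    (ψ : Fr p e R →ₗ[R] R) (a x : ι → R) :
    ψ (Fr.mk p e (∑ i, a i ^ p ^ e * x i)) = ∑ i, a i * ψ (Fr.mk p e (x i)) := by
  simp only [map_sum, Fr.apply_pow_mul]

lemma apply_mem {e : ℕ} {R : Type*} [CommRing R] [ExpChar R p] {M : Type*} [AddCommGroup M]
    [Module R M] (ψ : Fr p e R →ₗ[R] M) (I : Ideal R) {z : R}
    (hz : z ∈ I.map (iterateFrobenius R p e)) : ψ (Fr.mk p e z) ∈ I • (⊤ : Submodule R M) := by
  suffices ∀ c, ψ (Fr.mk p e (c * z)) ∈ I • (⊤ : Submodule R M) by simpa using this 1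
  induction hz using Submodule.span_induction with
  | mem _ hz =>
    obtain ⟨r, hr, rfl⟩ := hz
    intro c
    have : Fr.mk p e (c * iterateFrobenius R p e r) = r • Fr.mk p e c := by
      rw [mul_comm]; rfl
    rw [this, map_smul]
    exact Submodule.smul_mem_smul hr trivial
  | zero => simp
  | add x y _ _ h1 h2 => intro c; rw [mul_add, map_add, map_add]; exact add_mem (h1 c) (h2 c)
  | smul d x _ h1 => exact fun c => by simpa only [smul_eq_mul, mul_assoc] using h1 (c * d)

lemma exists_one {e : ℕ} {R : Type*} [CommRing R] [IsLocalRing R] [ExpChar R p]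
    (φ : Fr p e R →ₗ[R] R) {c : Fr p e R} (h : φ c ∉ maximalIdeal R) :
    ∃ ψ : Fr p e R →ₗ[R] R, ψ c = 1 := by
  obtain ⟨u, hu⟩ := notMem_maximalIdeal.1 h
  exact ⟨(↑u⁻¹ : R) • φ, by rw [LinearMap.smul_apply, ← hu, smul_eq_mul, Units.inv_mul]⟩

namespace An

variable {S T : Type*} [CommRing S] [CommRing T] [IsLocalRing S] [IsLocalRing T] [Algebra S T]
  (h : An S T)
include h

lemma comap (I : Ideal S) : (I.map (algebraMap S T)).comap (algebraMap S T) = I := by
  have := h.flat
  have : IsLocalHom (algebraMap S T) :=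
    ((local_hom_TFAE (algebraMap S T)).out 0 2).2 h.map.le
  have : Module.FaithfullyFlat S T := .of_flat_of_isLocalHom
  exact Ideal.comap_map_eq_self_of_faithfullyFlat I

lemma mem {s : S} : algebraMap S T s ∈ maximalIdeal T ↔ s ∈ maximalIdeal S := by
  rw [← h.map, ← Ideal.mem_comap, h.comap]

lemma inj : Function.Injective (algebraMap S T) := by
  refine (injective_iff_map_eq_zero _).2 fun s hs => ?_
  rw [← Ideal.mem_bot, ← h.comap ⊥, Ideal.mem_comap, hs]
  exact zero_mem _

lemma approx (n : ℕ) (t : T) : ∃ s, t - algebraMap S T s ∈ maximalIdeal T ^ n := by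
  have := MP_9e3d42_al.CS.approx (algebraMap S T) (maximalIdeal S)
    (by rw [h.map]; exact h.res) n t
  rwa [h.map] at this

lemma dim [IsNoetherianRing S] [IsNoetherianRing T] : ringKrullDim T = ringKrullDim S := by
  have := h.flat
  have : (maximalIdeal T).LiesOver (maximalIdeal S) := ⟨by
    ext s; rw [Ideal.under_def, Ideal.mem_comap, h.mem]⟩
  have : Nontrivial (T ⧸ (maximalIdeal S).map (algebraMap S T)) :=
    Ideal.Quotient.nontrivial_iff.2 (by rw [h.map]; exact (maximalIdeal.isMaximal T).ne_top)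
  have h0 : (maximalIdeal T).map (Ideal.Quotient.mk ((maximalIdeal S).map (algebraMap S T))) = ⊥ :=
    (Ideal.map_eq_bot_iff_le_ker _).2 (by rw [Ideal.mk_ker, h.map])
  rw [← maximalIdeal_height_eq_ringKrullDim, ← maximalIdeal_height_eq_ringKrullDim,
    Ideal.height_eq_height_add_of_liesOver_of_hasGoingDown (maximalIdeal S) (maximalIdeal T),
    h0, Ideal.height_bot, add_zero]

variable [ExpChar S p] [ExpChar T p] [IsNoetherianRing S] [IsNoetherianRing T]
  [IsAdicComplete (maximalIdeal T) T] {e : ℕ}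

lemma gen {n : ℕ} {x : Fin n → S} (hx : ∀ s, ∃ a : Fin n → S, s = ∑ i, a i ^ p ^ e * x i) :
    Function.Surjective
      (Fintype.linearCombination T fun i => Fr.mk p e (algebraMap S T (x i))) := by
  have hq := expChar_pow_pos T p e
  have := prec_fin (C := Fin n → T) (maximalIdeal T)
  have : IsHausdorff (maximalIdeal T) (Fr p e T) := ⟨fun y hy => by
    refine (map_eq_zero_iff _ (Fr.mk p e).symm.injective).1
      (IsHausdorff.haus' (I := maximalIdeal T) _ fun n => ?_)
    have := hy n
    rw [SModEq.zero] at this ⊢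
    rw [smul_eq_mul, Ideal.mul_top]
    refine Submodule.smul_induction_on this (fun r hr z _ => ?_) fun a b ha hb => ?_
    · rw [Fr.symm_smul, smul_eq_mul]
      exact Ideal.mul_mem_right _ _ (Ideal.pow_mem_of_mem _ hr _ hq)
    · rw [map_add]; exact add_mem ha hb⟩
  refine surjective_of_mkQ_comp_surjective (I := maximalIdeal T) fun y => ?_
  obtain ⟨y, rfl⟩ := Submodule.mkQ_surjective _ y
  obtain ⟨y, rfl⟩ := (Fr.mk p e).surjective y
  obtain ⟨N, hN⟩ := Ideal.exists_pow_le_of_le_radical_of_fg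
    (show maximalIdeal T ≤ ((maximalIdeal T).map (iterateFrobenius T p e)).radical from
      fun r hr => ⟨p ^ e, Ideal.mem_map_of_mem (iterateFrobenius T p e) hr⟩)
    (maximalIdeal T).fg_of_isNoetherianRing
  obtain ⟨s, hs⟩ := h.approx N y
  obtain ⟨a, rfl⟩ := hx s
  refine ⟨fun i => algebraMap S T (a i), ((Submodule.Quotient.eq _).2 ?_).symm⟩
  convert apply_mem (LinearMap.id : Fr p e T →ₗ[T] _) _ (hN hs) using 1
  simp [Fintype.linearCombination_apply, Fr.smul_mk, Algebra.smul_def]

variable [Module.Finite S (Fr p e S)]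

lemma span (t : T) : ∃ (n : ℕ) (τ : Fin n → T) (x : Fin n → S),
    t = ∑ i, τ i ^ p ^ e * algebraMap S T (x i) := by
  obtain ⟨n, x, hx⟩ := exists_gen p e S
  obtain ⟨τ, hτ⟩ := h.gen hx (Fr.mk p e t)
  refine ⟨n, τ, x, (Fr.mk p e).injective ?_⟩
  rw [← hτ, map_sum, Fintype.linearCombination_apply]
  rfl

lemma extend (φ : Fr p e S →ₗ[S] S) : ∃ ψ : Fr p e T →ₗ[T] T,
    ∀ s, ψ (Fr.mk p e (algebraMap S T s)) = algebraMap S T (φ (Fr.mk p e s)) := by
  obtain ⟨n, x, hx⟩ := exists_gen p e S
  let π := Fintype.linearCombination T fun i => Fr.mk p e (algebraMap S T (x i))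
  let θ := Fintype.linearCombination T fun i => algebraMap S T (φ (Fr.mk p e (x i)))
  have hπ : ∀ a : Fin n → S, π (fun i => algebraMap S T (a i)) =
      Fr.mk p e (algebraMap S T (∑ i, a i ^ p ^ e * x i)) := fun a => by
    simp [π, Fintype.linearCombination_apply, Fr.smul_mk, Algebra.smul_def]
  have hθ : ∀ a : Fin n → S, θ (fun i => algebraMap S T (a i)) =
      algebraMap S T (φ (Fr.mk p e (∑ i, a i ^ p ^ e * x i))) := fun a => by
    rw [apply_sum]
    simp [θ, Fintype.linearCombination_apply]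
  have hk : LinearMap.ker π ≤ LinearMap.ker θ := fun τ hτ => by
    rw [LinearMap.mem_ker] at hτ ⊢
    refine IsHausdorff.haus' (I := maximalIdeal T) _ fun N => ?_
    rw [SModEq.zero, smul_eq_mul, Ideal.mul_top]
    choose a ha using fun i => h.approx N (τ i)
    have h0 : ∑ i, τ i ^ p ^ e * algebraMap S T (x i) = 0 := by
      apply (Fr.mk p e).injective
      rw [map_zero, ← hτ, map_sum]
      exact (Fintype.linearCombination_apply T _ τ).symm
    have h1 : ∑ i, a i ^ p ^ e * x i ∈ (maximalIdeal S ^ N).map (iterateFrobenius S p e) := by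
      have h2 : (algebraMap S T).comp (iterateFrobenius S p e) =
          (iterateFrobenius T p e).comp (algebraMap S T) :=
        RingHom.ext fun s => map_pow (algebraMap S T) s _
      refine (h.comap _).le (Ideal.mem_comap.2 ?_)
      rw [Ideal.map_map, h2, ← Ideal.map_map, Ideal.map_pow (algebraMap S T), h.map, ← neg_mem_iff]
      have h3 : -algebraMap S T (∑ i, a i ^ p ^ e * x i) = ∑ i,
          iterateFrobenius T p e (τ i - algebraMap S T (a i)) * algebraMap S T (x i) := by
        simp only [map_sub, iterateFrobenius_def, sub_mul, Finset.sum_sub_distrib, h0, zero_sub,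
          map_sum, map_mul, map_pow]
      rw [h3]
      exact Ideal.sum_mem _ fun i _ => Ideal.mul_mem_right _ _ (Ideal.mem_map_of_mem _ (ha i))
    have h2 := apply_mem φ _ h1
    rw [smul_eq_mul, Ideal.mul_top] at h2
    have h3 := Ideal.mem_map_of_mem (algebraMap S T) h2
    rw [Ideal.map_pow, h.map, ← hθ] at h3
    rw [← sub_add_cancel τ fun i => algebraMap S T (a i), map_add]
    refine add_mem ?_ h3
    simp only [θ, Fintype.linearCombination_apply]
    exact Ideal.sum_mem _ fun i _ => Ideal.mul_mem_right _ _ (ha i)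
  refine ⟨(LinearMap.ker π).liftQ θ hk ∘ₗ (π.quotKerEquivOfSurjective (h.gen hx)).symm.toLinearMap,
    fun s => ?_⟩
  obtain ⟨a, rfl⟩ := hx s
  rw [← hπ, ← hθ, LinearMap.comp_apply, LinearEquiv.coe_coe,
    LinearMap.quotKerEquivOfSurjective_symm_apply]
  rfl

lemma desc (ψ : Fr p e T →ₗ[T] T) : ∃ φ : Fr p e S →ₗ[S] S, ∀ s,
    ψ (Fr.mk p e (algebraMap S T s)) - algebraMap S T (φ (Fr.mk p e s)) ∈ maximalIdeal T := by
  have := h.flat
  have := Module.finitePresentation_of_finite S (Fr p e S)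
  let ψ₀ : Fr p e S →ₗ[S] T :=
    { toFun := fun y => ψ (Fr.mk p e (algebraMap S T ((Fr.mk p e).symm y)))
      map_add' := fun a b => by simp only [map_add]
      map_smul' := fun r y => by
        rw [Fr.symm_smul, smul_eq_mul, map_mul, map_pow, Fr.apply_pow_mul, Algebra.smul_def]
        rfl }
  obtain ⟨k, a, b, hab⟩ := Module.Flat.exists_factorization_of_finitePresentation ψ₀
  choose u hu using fun l : Fin k => h.res (b (Finsupp.single l 1))
  refine ⟨Finsupp.linearCombination S u ∘ₗ a, fun s => ?_⟩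
  change ψ₀ (Fr.mk p e s) - _ ∈ _
  rw [hab, LinearMap.comp_apply, LinearMap.comp_apply]
  induction a (Fr.mk p e s) using Finsupp.induction_linear with
  | zero => simp
  | add f g hf hg => convert add_mem hf hg using 1; simp only [map_add]; ring
  | single l c =>
    rw [Finsupp.linearCombination_single, ← Finsupp.smul_single_one, map_smul, Algebra.smul_def,
      smul_eq_mul, map_mul, ← mul_sub]
    exact Ideal.mul_mem_left _ _ (hu l)

lemma dual (n : ℕ) : Dual S (Fr p e S) n ↔ Dual T (Fr p e T) n := by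
  constructor
  · rintro ⟨φ, x, hx⟩
    choose ψ hψ using fun i => h.extend (φ i)
    refine ⟨ψ, fun j => Fr.mk p e (algebraMap S T ((Fr.mk p e).symm (x j))), fun i j => ?_⟩
    rw [hψ, AddEquiv.apply_symm_apply, hx]
    split_ifs <;> simp
  · rintro ⟨ψ, y, hy⟩
    choose φ hφ using fun i => h.desc (ψ i)
    have : ∀ j, ∃ s, ∀ i, ψ i (y j) - ψ i (Fr.mk p e (algebraMap S T s)) ∈ maximalIdeal T := by
      intro j
      obtain ⟨m, τ, x, hx⟩ := h.span (p := p) (e := e) ((Fr.mk p e).symm (y j))
      choose a ha using fun l => h.res (τ l)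
      refine ⟨∑ l, a l ^ p ^ e * x l, fun i => ?_⟩
      rw [← (Fr.mk p e).apply_symm_apply (y j), hx, map_sum (algebraMap S T)]
      simp only [map_mul, map_pow, apply_sum, ← Finset.sum_sub_distrib, ← sub_mul]
      exact Ideal.sum_mem _ fun l _ => Ideal.mul_mem_right _ _ (ha l)
    choose s hs using this
    let A : Matrix (Fin n) (Fin n) S := Matrix.of fun i j => φ i (Fr.mk p e (s j))
    have hA : (residue S).mapMatrix A = 1 := by
      ext i j
      have h1 := add_mem (hs j i) (hφ i (s j))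
      rw [sub_add_sub_cancel, hy] at h1
      have h2 : (if i = j then 1 else 0) - A i j ∈ maximalIdeal S := by
        rw [← h.mem, map_sub, apply_ite (algebraMap S T), map_one, map_zero]
        exact h1
      rw [← residue_eq_zero_iff, map_sub, sub_eq_zero] at h2
      rw [RingHom.mapMatrix_apply, Matrix.map_apply, ← h2, Matrix.one_apply]
      split_ifs <;> simp
    have hu : IsUnit A.det := by
      rw [← residue_ne_zero_iff_isUnit, RingHom.map_det, hA, Matrix.det_one]
      exact one_ne_zero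
    refine ⟨φ, fun j => ∑ l, A⁻¹ l j • Fr.mk p e (s l), fun i j => ?_⟩
    have := congrFun (congrFun (Matrix.mul_nonsing_inv A hu) i) j
    rw [Matrix.mul_apply, Matrix.one_apply] at this
    rw [← this, map_sum]
    exact Finset.sum_congr rfl fun l _ => by rw [map_smul, smul_eq_mul, mul_comm]; rfl

lemma sfr_desc (hf : ∀ e, Module.Finite S (Fr p e S)) (hT : SFR p T) : SFR p S := fun c hc => by
  obtain ⟨e, he, ψ, hψ⟩ := hT (algebraMap S T c) (by rwa [map_ne_zero_iff _ h.inj])
  have := hf e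
  obtain ⟨φ, hφ⟩ := h.desc ψ
  refine ⟨e, he, exists_one φ fun h1 => (maximalIdeal.isMaximal T).ne_top ?_⟩
  have h2 := add_mem (hφ c) (h.mem.2 h1)
  rwa [sub_add_cancel, hψ, ← Ideal.eq_top_iff_one] at h2

lemma sfr_asc [IsDomain S] (hp : 2 ≤ p) (hf : ∀ e, Module.Finite S (Fr p e S)) (hS : SFR p S) :
    SFR p T := by
  let P : Ideal T :=
    { carrier := {t | ∀ e, 1 ≤ e → ∀ ψ : Fr p e T →ₗ[T] T, ψ (Fr.mk p e t) ∈ maximalIdeal T}
      add_mem' := fun ha hb e he ψ => by
        rw [map_add, map_add]; exact add_mem (ha e he ψ) (hb e he ψ)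
      zero_mem' := fun e he ψ => by simp
      smul_mem' := fun c t ht e he ψ => ht e he (ψ ∘ₗ Fr.map p e (LinearMap.lsmul T T c)) }
  suffices ∀ t ∈ P, t = 0 by
    intro c hc
    by_contra hn
    refine hc (this c fun e he ψ => ?_)
    by_contra h1
    exact hn ⟨e, he, exists_one ψ h1⟩
  have := hf 1
  obtain ⟨b, hb, ι, _, φ, x, hx⟩ := exists_factor S (Fr p 1 S)
  choose ψ hψ using fun i => h.extend (φ i)
  have h1 : ∀ t : T, algebraMap S T (b ^ p ^ 1) * t =
      ∑ i, ψ i (Fr.mk p 1 t) ^ p ^ 1 * algebraMap S T ((Fr.mk p 1).symm (x i)) := by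
    intro t
    obtain ⟨m, τ, z, rfl⟩ := h.span (p := p) (e := 1) t
    have h2 : ∀ l, b ^ p ^ 1 * z l =
        ∑ i, φ i (Fr.mk p 1 (z l)) ^ p ^ 1 * (Fr.mk p 1).symm (x i) := fun l => by
      have := congrArg (Fr.mk p 1).symm (hx (Fr.mk p 1 (z l)))
      rwa [map_sum] at this
    simp only [apply_sum, hψ, sum_pow_char_pow, Finset.sum_mul, Finset.mul_sum]
    rw [Finset.sum_comm]
    refine Finset.sum_congr rfl fun l _ => ?_
    rw [mul_left_comm, ← map_mul, h2, map_sum, Finset.mul_sum]
    simp only [map_mul, map_pow, mul_pow, mul_assoc]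
  have h2 : ∀ i, ∀ t ∈ P, ψ i (Fr.mk p 1 t) ∈ P := fun i t ht e he χ =>
    ht (e + 1) (by omega) (χ ∘ₗ Fr.map p e (ψ i) ∘ₗ (Fr.succEquiv p e T T).symm.toLinearMap)
  obtain ⟨f, hf1, -, hf2, hf3⟩ :=
    LinearMap.exists_monic_and_natDegree_eq_and_coeff_mem_pow_and_aeval_eq_zero T
      (algebraMap T (Module.End T P) (algebraMap S T (b ^ p ^ 1))) P (by
        rintro _ ⟨t, rfl⟩
        rw [Submodule.mem_smul_top_iff]
        change algebraMap S T (b ^ p ^ 1) * (t : T) ∈ P * P
        rw [h1]
        refine Ideal.sum_mem _ fun i _ => Ideal.mul_mem_right _ _ ?_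
        rw [← sq]
        exact Ideal.pow_le_pow_right (by simpa using hp) (Ideal.pow_mem_pow (h2 i t t.2) _))
  obtain ⟨B, hB, a, ha, hBa⟩ : ∃ B : S, B ≠ 0 ∧ ∃ a ∈ P, ∀ t ∈ P, algebraMap S T B * t = a * t := by
    refine ⟨(b ^ p ^ 1) ^ f.natDegree, pow_ne_zero _ (pow_ne_zero _ hb),
      -∑ i ∈ Finset.range f.natDegree, f.coeff i * algebraMap S T (b ^ p ^ 1) ^ i,
      neg_mem (Ideal.sum_mem _ fun i hi => Ideal.mul_mem_right _ _
        (Ideal.pow_le_self (Nat.sub_ne_zero_of_lt (Finset.mem_range.1 hi)) (hf2 i))),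
      fun t ht => ?_⟩
    rw [Polynomial.aeval_algebraMap_apply_eq_algebraMap_eval] at hf3
    have h3 : f.eval (algebraMap S T (b ^ p ^ 1)) * t = 0 :=
      congrArg Subtype.val (LinearMap.congr_fun hf3 ⟨t, ht⟩)
    rw [Polynomial.eval_eq_sum_range, Finset.sum_range_succ, hf1.coeff_natDegree, one_mul] at h3
    rw [map_pow]
    linear_combination h3
  obtain ⟨e, he, χ, hχ⟩ := hS B hB
  have := hf e
  obtain ⟨ω, hω⟩ := h.extend χ
  have h3 : ∀ n : ℕ, a ^ n * a = algebraMap S T B ^ n * a := fun n => by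
    induction n with
    | zero => simp
    | succ n ih => linear_combination a * ih - algebraMap S T B ^ n * hBa a ha
  have h4 : a = algebraMap S T B * ω (Fr.mk p e a) := by
    obtain ⟨r, hr⟩ := Nat.exists_eq_add_one_of_ne_zero (expChar_pow_pos T p e).ne'
    have h5 : a ^ p ^ e * algebraMap S T B = algebraMap S T B ^ p ^ e * a := by
      rw [← h3, hr]
      linear_combination a ^ r * hBa a ha
    have := congrArg (fun u => ω (Fr.mk p e u)) h5
    simpa only [Fr.apply_pow_mul, hω, hχ, map_one, mul_one] using this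
  intro t ht
  have h5 : IsUnit (1 - ω (Fr.mk p e a)) := isUnit_one_sub_self_of_mem_nonunits _ (ha e he ω)
  have := h.flat
  have h6 : IsSMulRegular T B := Module.Flat.isSMulRegular_of_nonZeroDivisors
    (mem_nonZeroDivisors_of_ne_zero hB)
  refine h5.mul_right_eq_zero.1 (h6.right_eq_zero_of_smul ?_)
  rw [Algebra.smul_def]
  linear_combination hBa t ht + t * h4

end An

lemma an_cpl (R : Type*) [CommRing R] [IsLocalRing R] [IsNoetherianRing R] :
    An R (AdicCompletion (maximalIdeal R) R) :=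
  ⟨inferInstance, AdicCompletion.maximalIdeal_eq_map.symm, cpl_res R⟩

lemma An.equiv {S T U : Type*} [CommRing S] [CommRing T] [CommRing U] [IsLocalRing S]
    [IsLocalRing T] [IsLocalRing U] [Algebra S T] [Algebra S U] (h : An S T) (g : T ≃ₐ[S] U) :
    An S U := by
  have := h.flat
  have hm : (maximalIdeal T).map (g : T →+* U) = maximalIdeal U :=
    map_maximalIdeal_of_surjective _ g.surjective
  have hg : (g : T →+* U).comp (algebraMap S T) = algebraMap S U := RingHom.ext g.commutes
  refine ⟨.of_linearEquiv g.toLinearEquiv.symm, ?_, fun u => ?_⟩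
  · rw [← hm, ← h.map, Ideal.map_map, hg]
  · obtain ⟨s, hs⟩ := h.res (g.symm u)
    refine ⟨s, ?_⟩
    have := Ideal.mem_map_of_mem (g : T →+* U) hs
    rw [hm, map_sub] at this
    simpa using this

theorem zigzag (hp : p.Prime) {k A R T : Type*} [Field k] [CommRing A] [CommRing R] [CommRing T]
    [IsLocalRing A] [IsLocalRing R] [IsLocalRing T] [Algebra k A] [Algebra.EssFiniteType k A]
    [IsNoetherianRing R] [IsNoetherianRing T] [IsAdicComplete (maximalIdeal T) T] [Algebra A T]
    [Algebra R T] [IsDomain R] [CharP R p] [ExpChar R p] [Module.Finite R (Fr p 1 R)]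
    (hA : An A T) (hR : An R T) {d : ℕ} (hd : ringKrullDim R = d)
    (hperf : ∀ y : R, ∃ z : R, y - z ^ p ∈ maximalIdeal R) (hF : SFR p R) :
    ∃ s C K : ℝ, ∀ e : ℕ, ∃ a : ℕ, IsGreatest {n : ℕ | Dual R (Fr p e R) n} a ∧
      |(a : ℝ) - s * (p : ℝ) ^ ((e : ℝ) * (d : ℝ)) - C * (p : ℝ) ^ ((e : ℝ) * ((d : ℝ) - 1))|
        ≤ K * (p : ℝ) ^ ((e : ℝ) * ((d : ℝ) - 2)) := by
  have : Fact p.Prime := ⟨hp⟩
  have : CharP T p := charP_of_injective_algebraMap hR.inj p
  have : CharP A p := (algebraMap A T).charP hA.inj p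
  have : CharP k p := (algebraMap k A).charP (algebraMap k A).injective p
  have : IsNoetherianRing A := Algebra.EssFiniteType.isNoetherianRing k A
  have hT : SFR p T := hR.sfr_asc hp.two_le fr_finite hF
  have : IsDomain T := isDomain_of_sfr hp.two_le fun c hc => by
    obtain ⟨P, hP, -⟩ := Ideal.exists_minimalPrimes_le (I := ⊥) (J := maximalIdeal T) bot_le
    obtain ⟨e, he, φ, hφ⟩ := hT c fun h0 => hc P hP (h0 ▸ zero_mem P)
    refine ⟨e, he, φ.toAddMonoidHom.comp (Fr.mk p e (M := T)).toAddMonoidHom, fun r y => ?_, hφ⟩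
    exact Fr.apply_pow_mul φ r y
  have : IsDomain A := hA.inj.isDomain _
  have hperf' : ∀ y : A, ∃ z : A, y - z ^ p ∈ maximalIdeal A := fun y => by
    obtain ⟨r, hr⟩ := hR.res (algebraMap A T y)
    obtain ⟨z, hz⟩ := hperf r
    obtain ⟨w, hw⟩ := hA.res (algebraMap R T z)
    refine ⟨w, hA.mem.1 ?_⟩
    have := add_mem (add_mem hr (hR.mem.2 hz)) (Ideal.pow_mem_of_mem _ hw p hp.pos)
    rw [sub_pow_char] at this
    convert this using 1
    simp only [map_sub, map_pow]
    ring
  have : PerfectField k := by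
    let _ := Ideal.Quotient.field (maximalIdeal A)
    refine perfectField_of_perfect (p := p) k (A ⧸ maximalIdeal A) fun y => ?_
    obtain ⟨y, rfl⟩ := Ideal.Quotient.mk_surjective y
    obtain ⟨z, hz⟩ := hperf' y
    exact ⟨Ideal.Quotient.mk _ z, by rw [← map_pow, eq_comm, Ideal.Quotient.eq]; exact hz⟩
  obtain ⟨m, _, _, S, N, y, hB, hS⟩ := exists_base k A
  have hf := (hB.locGen hS).finite (p := p)
  have hd' : ringKrullDim A = d := by rw [← hA.dim, hR.dim, hd]
  have key : ∀ e, {n : ℕ | Dual R (Fr p e R) n} = {n : ℕ | Dual A (Fr p e A) n} := fun e => by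
    have := hf e
    have := fr_finite (R := R) (p := p) e
    exact Set.ext fun n => (hR.dual n).trans (hA.dual n).symm
  simp only [key]
  cases d with
  | zero => exact ⟨1, 0, 0, fun e => ⟨1, main_zero hp.two_le hd' hperf' e, by simp⟩⟩
  | succ n =>
    obtain ⟨htop, s, C, K, h⟩ := main_pos (k := k) hp.two_le hd' hperf' (hA.sfr_desc hf hT)
    exact ⟨s, C, K, fun e => ⟨_, isGreatest_dual (htop e), h e⟩⟩

end Pool.Agent.Lib.MP_5022ed_ag
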